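import Pool.Agent.MP_cb8ad4_co.Mg.Main

/-!
The threshold `s₀(ℓ)` exists, equals the largest of the numbers
`k - 2 + ∑_T (R(e_i + 1 : i ∈ T) - 1)` built from three-colour Ramsey numbers, grows
exponentially, and equals `3, 9, 19, 34` for `ℓ = 0, 1, 2, 3`.
-/

open Pool.Agent.MP_cb8ad4_co in
theorem Pool.Agent.Results.MP_cb8ad4_co.Threshold.result (ℓ : ℕ) : ∃ s₀ : ℕ,
    IsLeast {s₁ : ℕ | 0 < s₁ ∧ ∀ s, s₁ ≤ s → SigmaEq (2 * s + 1) ((s + 1) ^ 2 + ℓ) (s + 2)} s₀ ∧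
    IsGreatest (ramseyValues ℓ) s₀ ∧ 3 ^ ℓ ≤ s₀ ^ 6 ∧ s₀ ≤ 3 ^ (ℓ + 5) ∧
    (ℓ ≤ 3 → s₀ + 1 = (ℓ + 4).choose 3) :=
  threshold ℓ
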